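import Pool.Agent.H706R2.PS.Fin5
import Pool.Agent.H706R2.PS.D2
import Pool.Agent.H706R2.PS.D3
import Pool.Agent.H706R2.PS.D4
import Pool.Agent.H706R2.PS.D5

/-!
# Equidistribution along the times `⌊n^α⌋` for all `α` outside a set of Hausdorff dimension `< 1`
-/

set_option autoImplicit false

open Finset MeasureTheory Filter Topology
open Pool.Agent.H706R2.PS

namespace Pool.Agent.Results.MP_4ace04_an.MetricExponents

universe u

/-- If `(y m)` is equidistributed with respect to the probability measure `μ` on the locally compact second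
countable space `X`, then so is `(y ⌊n^α⌋)`, for all `α > 1` outside a set whose Hausdorff dimension is `< 1`
(uniformly, `≤ d(C0) < 1`, for exponents in `(1, C0]`). -/
theorem result : ∀ C0 : ℝ, 1 ≤ C0 → ∃ d : ℝ, d < 1 ∧
    ∀ (X : Type u) [TopologicalSpace X] [SecondCountableTopology X] [T2Space X]
      [LocallyCompactSpace X] [MeasurableSpace X] [BorelSpace X] (μ : Measure X) [IsProbabilityMeasure μ]
      (y : ℕ → X),
    (∀ f : X → ℝ, Continuous f → HasCompactSupport f →
      Tendsto (fun N : ℕ => (1 / (N : ℝ)) * ∑ n ∈ Icc 1 N, f (y n)) atTop (nhds (∫ x, f x ∂μ))) →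
    ∃ E : Set ℝ, dimH E ≤ ENNReal.ofReal d ∧ ∀ α : ℝ, 1 < α → α ≤ C0 → α ∉ E →
      ∀ f : X → ℝ, Continuous f → HasCompactSupport f →
        Tendsto (fun N : ℕ => (1 / (N : ℝ)) * ∑ n ∈ Icc 1 N, f (y ⌊(n : ℝ) ^ α⌋₊)) atTop
          (nhds (∫ x, f x ∂μ)) :=
  equi.{u} d2 d3 d4 d5

end Pool.Agent.Results.MP_4ace04_an.MetricExponents
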