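import Pool.Agent.H706R2.PS.Fin6
import Pool.Agent.H706R2.PS.D3
import Pool.Agent.H706R2.PS.D5
import Pool.Agent.H706R2.PS.A3
import Pool.Agent.H706R2.PS.A4
import Pool.Agent.H706R2.PS.A5
import Pool.Agent.H706R2.PS.A6
import Pool.Agent.H706R2.PS.A7
import Pool.Agent.H706R2.PS.A9
import Pool.Agent.H706R2.PS.A10a
import Pool.Agent.H706R2.PS.A10b
import Pool.Agent.H706R2.PS.A11
import Pool.Agent.H706R2.PS.A12
import Pool.Agent.H706R2.PS.A13
import Pool.Agent.H706R2.PS.A15
import Pool.Agent.H706R2.PS.W14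
import Pool.Agent.H706R2.PT.S2
import Pool.Agent.H706R2.PT.S3
import Pool.Agent.H706R2.PT.S4
import Pool.Agent.H706R2.PT.S5
import Pool.Agent.H706R2.PT.S6
import Pool.Agent.H706R2.PT.S8

/-!
# Equidistribution along the real times `β n^c` (squares for `c = 2`) for all `β > 0` outside a set of
Hausdorff dimension `< 1`
-/

set_option autoImplicit false

open Finset MeasureTheory Filter Topology
open Pool.Agent.H706R2.PS

namespace Pool.Agent.Results.MP_4ace04_an.RescaledSquares

universe u

lemma law : A15 := a15 (a12 (a10b a3 (a10a (a7 a5 a6) (a9 a4))) a11) a13 w14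

/-- If the orbit `(φ t x)`, `t ≥ 0`, of a continuous flow on a locally compact second countable space is
equidistributed with respect to the probability measure `μ`, then for all `β > 0` outside a set of Hausdorff
dimension at most `d(c) < 1` the sequence `φ (β n^c) x` is equidistributed with respect to `μ`. -/
theorem result : ∀ c : ℝ, 1 < c → ∃ d : ℝ, d < 1 ∧
    ∀ (X : Type u) [TopologicalSpace X] [SecondCountableTopology X] [T2Space X]
      [LocallyCompactSpace X] [MeasurableSpace X] [BorelSpace X] (μ : Measure X) [IsProbabilityMeasure μ]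
      (φ : ℝ → X → X), Continuous (fun p : ℝ × X => φ p.1 p.2) →
      (∀ s t x, φ (s + t) x = φ s (φ t x)) → (∀ x, φ 0 x = x) → ∀ x : X,
    (∀ f : X → ℝ, Continuous f → HasCompactSupport f →
      Tendsto (fun T : ℝ => (1 / T) * ∫ t in (0 : ℝ)..T, f (φ t x)) atTop (nhds (∫ z, f z ∂μ))) →
    ∃ E : Set ℝ, dimH E ≤ ENNReal.ofReal d ∧ ∀ β : ℝ, 0 < β → β ∉ E →
      ∀ f : X → ℝ, Continuous f → HasCompactSupport f →
        Tendsto (fun N : ℕ => (1 / (N : ℝ)) * ∑ n ∈ Icc 1 N, f (φ (β * (n : ℝ) ^ c) x)) atTop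
          (nhds (∫ z, f z ∂μ)) :=
  flow.{u} d3 d5 (s5 (s2 law) s3 s4) s6 s8

end Pool.Agent.Results.MP_4ace04_an.RescaledSquares
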